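import Mathlib

/-!
# Fields are formally smooth over perfect fields, and coefficient fields
-/

namespace Pool.Agent.Helper78.AN

open MvPolynomial

/-- The first homology of the cotangent complex in terms of polynomials. -/
theorem subsingleton_h1_iff (k K : Type*) [Field k] [Field K] [Algebra k K] :
    Subsingleton (Algebra.H1Cotangent k K) ↔
      ∀ f : MvPolynomial K k, aeval (id : K → K) f = 0 → (∀ i, aeval (id : K → K) (pderiv i f) = 0) →
        f ∈ (RingHom.ker (aeval (id : K → K) : MvPolynomial K k →ₐ[k] K)) ^ 2 := by
  change Subsingleton (Algebra.Generators.self k K).toExtension.H1Cotangent ↔ _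
  rw [Algebra.Extension.subsingleton_h1Cotangent, injective_iff_map_eq_zero]
  constructor
  · intro h f hf hd
    let x : (Algebra.Generators.self k K).toExtension.ker := ⟨f, hf⟩
    have h1 := h (Algebra.Extension.Cotangent.mk x) ?_
    · exact (Algebra.Extension.Cotangent.mk_eq_zero_iff x).1 h1
    · rw [Algebra.Extension.cotangentComplex_mk]
      apply (Algebra.Generators.self k K).cotangentSpaceBasis.repr.injective
      ext i
      rw [(Algebra.Generators.self k K).cotangentSpaceBasis_repr_one_tmul, map_zero]
      exact hd i
  · intro h x hx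
    obtain ⟨⟨f, hf⟩, rfl⟩ := Algebra.Extension.Cotangent.mk_surjective x
    rw [Algebra.Extension.Cotangent.mk_eq_zero_iff]
    refine h f hf fun i => ?_
    rw [Algebra.Extension.cotangentComplex_mk] at hx
    have h2 := congrArg (fun y => (Algebra.Generators.self k K).cotangentSpaceBasis.repr y i) hx
    rw [(Algebra.Generators.self k K).cotangentSpaceBasis_repr_one_tmul, map_zero] at h2
    exact h2

theorem formallySmooth_of_perfect (k K : Type*) [Field k] [Field K] [Algebra k K] [PerfectField k] :
    Algebra.FormallySmooth k K := by
  classical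
  refine ⟨inferInstance, (subsingleton_h1_iff k K).2 fun f hf hd => ?_⟩
  let L : IntermediateField k K := IntermediateField.adjoin k (f.vars : Set K)
  have hL : Algebra.EssFiniteType k L :=
    IntermediateField.essFiniteType_iff.2 (IntermediateField.fg_adjoin_finset _)
  obtain ⟨g, hg⟩ := MvPolynomial.exists_rename_eq_of_vars_subset_range f (Subtype.val : L → K)
    Subtype.val_injective (fun x hx => ⟨⟨x, IntermediateField.subset_adjoin _ _ hx⟩, rfl⟩)
  have key : ∀ q : MvPolynomial L k, aeval (id : K → K) (rename (Subtype.val : L → K) q) =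
      ((aeval (id : L → L) q : L) : K) := by
    intro q
    rw [aeval_rename]
    have h1 : (L.val.comp (aeval (id : L → L) : MvPolynomial L k →ₐ[k] L)) =
        (aeval ((id : K → K) ∘ (Subtype.val : L → K)) : MvPolynomial L k →ₐ[k] K) := by
      apply MvPolynomial.algHom_ext
      intro i
      simp
    exact (DFunLike.congr_fun h1 q).symm
  have h2 := (subsingleton_h1_iff k L).1 inferInstance g
    (by
      apply Subtype.val_injective
      rw [← key, hg, hf]
      rfl)
    (by
      intro i
      apply Subtype.val_injective
      rw [← key, ← pderiv_rename Subtype.val_injective, hg, hd]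
      rfl)
  have h3 : (RingHom.ker (aeval (id : L → L) : MvPolynomial L k →ₐ[k] L)) ≤
      (RingHom.ker (aeval (id : K → K) : MvPolynomial K k →ₐ[k] K)).comap
        (rename (Subtype.val : L → K) : MvPolynomial L k →ₐ[k] MvPolynomial K k) := by
    intro q hq
    rw [Ideal.mem_comap, RingHom.mem_ker]
    change aeval (id : K → K) (rename (Subtype.val : L → K) q) = 0
    rw [key, show aeval (id : L → L) q = 0 from hq]
    rfl
  have h4 := Ideal.le_comap_pow (rename (Subtype.val : L → K) : MvPolynomial L k →ₐ[k] MvPolynomial K k)
    (K := RingHom.ker (aeval (id : K → K) : MvPolynomial K k →ₐ[k] K)) 2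
  have h5 := h4 (Ideal.pow_right_mono h3 2 h2)
  rw [Ideal.mem_comap] at h5
  change rename (Subtype.val : L → K) g ∈ _ at h5
  rwa [hg] at h5

/-- **Coefficient fields**: a complete local ring of characteristic `p` contains a field which maps
isomorphically onto the residue field. -/
theorem exists_coeff (p : ℕ) [Fact p.Prime] (A : Type*) [CommRing A] [IsLocalRing A] [CharP A p]
    [IsAdicComplete (IsLocalRing.maximalIdeal A) A] :
    ∃ s : IsLocalRing.ResidueField A →+* A, (IsLocalRing.residue A).comp s = RingHom.id _ := by
  let _ : Algebra (ZMod p) A := ZMod.algebra A p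
  let _ : Algebra (ZMod p) (IsLocalRing.ResidueField A) :=
    ((IsLocalRing.residue A).comp (algebraMap (ZMod p) A)).toAlgebra
  have : Algebra.FormallySmooth (ZMod p) (IsLocalRing.ResidueField A) :=
    formallySmooth_of_perfect (ZMod p) (IsLocalRing.ResidueField A)
  let f : IsLocalRing.ResidueField A →ₐ[ZMod p] A ⧸ IsLocalRing.maximalIdeal A :=
    { toRingHom := RingHom.id _
      commutes' := fun r => rfl }
  obtain ⟨g, hg⟩ := Algebra.FormallySmooth.exists_mkₐ_comp_eq_of_isAdicComplete f
  refine ⟨g.toRingHom, ?_⟩
  ext x
  exact DFunLike.congr_fun hg x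

end Pool.Agent.Helper78.AN
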