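import Pool.Agent.Helper78.AN.Lam

/-!
# The dual Artin-Rees lemma (block DAR)
-/

namespace Pool.Agent.Helper24.AN

variable {R : Type*} [CommRing R] {d : ℕ} {I : Ideal R} {x : Fin d → R}

/-- the elements that are mapped into `P` by `I ^ k` -/
def Quo (I : Ideal R) {H : Type*} [AddCommGroup H] [Module R H] (P : Submodule R H) (k : ℕ) : Submodule R H where
  carrier := {h | ∀ r ∈ I ^ k, r • h ∈ P}
  add_mem' := fun {a b} ha hb r hr => by rw [smul_add]; exact Submodule.add_mem _ (ha r hr) (hb r hr)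
  zero_mem' := fun r _ => by rw [smul_zero]; exact Submodule.zero_mem _
  smul_mem' := fun c h hh r hr => by rw [smul_comm]; exact Submodule.smul_mem _ _ (hh r hr)

theorem mem_Quo {H : Type*} [AddCommGroup H] [Module R H] {P : Submodule R H} {k : ℕ} {h : H} :
    h ∈ Quo I P k ↔ ∀ r ∈ I ^ k, r • h ∈ P := Iff.rfl

theorem sup_smul_mem {H : Type*} [AddCommGroup H] [Module R H] (N : Submodule R H) {n k : ℕ} {r : R}
    (hr : r ∈ I ^ k) {h : H} (hh : h ∈ N ⊔ E I H n) : r • h ∈ N ⊔ E I H (n - k) := by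
  obtain ⟨a, ha, e, he, rfl⟩ := Submodule.mem_sup.1 hh
  rw [smul_add]
  exact Submodule.add_mem_sup (Submodule.smul_mem _ _ ha) (smul_mem_E I hr he)

/-- Dual Artin-Rees lemma: take `dcc` for `K c n = N ⊔ E n` if `n ≤ c`, and
`K c n = {η | I ^ (n - c) • η ⊆ N ⊔ E c}` if `c < n`. -/
theorem dar (hx : Ideal.span (Set.range x) = I) {H : Type*} [AddCommGroup H] [Module R H]
    [IsArtinian R H] (N : Submodule R H) :
    ∃ c : ℕ, ∀ (j : ℕ) (η : H), (∀ r ∈ I ^ j, r • η ∈ N ⊔ E I H c) → η ∈ N ⊔ E I H (c + j) := by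
  classical
  have hxI : ∀ j, x j ∈ I := fun j => hx ▸ Ideal.subset_span ⟨j, rfl⟩
  let K : ℕ → ℕ → Submodule R H := fun c n => if n ≤ c then N ⊔ E I H n else Quo I (N ⊔ E I H c) (n - c)
  have hK1 : ∀ c n, n ≤ c → K c n = N ⊔ E I H n := fun c n h => if_pos h
  have hK2 : ∀ c n, c < n → K c n = Quo I (N ⊔ E I H c) (n - c) := fun c n h => if_neg (by omega)
  have hA : ∀ c n j, ∀ h ∈ K c (n + 1), x j • h ∈ K c n := by
    intro c n j h hh
    rcases Nat.lt_or_ge c (n + 1) with h1 | h1
    · rw [hK2 _ _ h1] at hh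
      rcases Nat.lt_or_ge c n with h2 | h2
      · rw [hK2 _ _ h2]
        intro r hr
        rw [smul_smul]
        apply hh
        rw [show n + 1 - c = (n - c) + 1 by omega, pow_succ]
        exact Ideal.mul_mem_mul hr (hxI j)
      · obtain rfl : n = c := by omega
        rw [hK1 _ _ le_rfl]
        apply hh
        rw [Nat.add_sub_cancel_left, pow_one]
        exact hxI j
    · rw [hK1 _ _ h1] at hh
      rw [hK1 _ _ (by omega)]
      exact sup_smul_mem (n := n + 1) (k := 1) N (by rw [pow_one]; exact hxI j) hh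
  have hB : ∀ c n, E I H n ≤ K c n := by
    intro c n
    rcases Nat.lt_or_ge c n with h1 | h1
    · rw [hK2 _ _ h1]
      intro h hh r hr
      have h2 := smul_mem_E I hr hh
      rw [show n - (n - c) = c by omega] at h2
      exact Submodule.mem_sup_right h2
    · rw [hK1 _ _ h1]
      exact le_sup_right
  have hC : ∀ c n, K (c + 1) n ≤ K c n := by
    intro c n
    rcases Nat.lt_or_ge c n with h1 | h1
    · rw [hK2 _ _ h1]
      rcases Nat.lt_or_ge (c + 1) n with h2 | h2
      · rw [hK2 _ _ h2]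
        intro h hh r hr
        rw [show n - c = (n - (c + 1)) + 1 by omega, pow_succ'] at hr
        refine Submodule.smul_induction_on (p := fun r => r • h ∈ N ⊔ E I H c) hr ?_ ?_
        · intro a ha b hb
          rw [smul_eq_mul, mul_smul]
          exact sup_smul_mem (n := c + 1) (k := 1) N (by rw [pow_one]; exact ha) (hh b hb)
        · intro a b ha hb
          rw [add_smul]
          exact Submodule.add_mem _ ha hb
      · obtain rfl : n = c + 1 := by omega
        rw [hK1 _ _ le_rfl]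
        intro h hh r hr
        rw [Nat.add_sub_cancel_left] at hr
        exact sup_smul_mem (n := c + 1) (k := 1) N hr hh
    · rw [hK1 _ _ h1, hK1 _ _ (by omega)]
  have key : ∃ c0, ∀ c, c0 ≤ c → ∀ n, K c n = K c0 n := by
    refine dcc (isArtinian_Lam (N := H) hx) K ?_ ?_ ?_
    · exact hA
    · exact hB
    · exact hC
  obtain ⟨c0, hc0⟩ := key
  refine ⟨c0, fun j η hη => ?_⟩
  rcases Nat.eq_zero_or_pos j with rfl | hj
  · have h1 := hη 1 (by rw [pow_zero, Ideal.one_eq_top]; trivial)
    rwa [one_smul] at h1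
  · have h2 := hc0 (c0 + j) (by omega) (c0 + j)
    rw [hK1 _ _ le_rfl, hK2 _ _ (by omega), Nat.add_sub_cancel_left] at h2
    rw [h2]
    exact mem_Quo.2 hη

end Pool.Agent.Helper24.AN
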