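import Pool.Agent.Helper24.AN.Def

/-!
# Powers and Frobenius powers (block GROWTH)
-/

namespace Pool.Agent.Helper24.AN

variable {R : Type*} [CommRing R] {d : ℕ} {I : Ideal R} {x : Fin d → R}

/-- products of `n` generators: powers of `I` are spanned by the monomials of degree `n` -/
theorem pow_eq_span_monomials (hx : Ideal.span (Set.range x) = I) (n : ℕ) :
    I ^ n ≤ Ideal.span {s | ∃ e : Fin d → ℕ, ∑ j, e j = n ∧ s = ∏ j, x j ^ e j} := by
  classical
  induction n with
  | zero =>
    rw [pow_zero, Ideal.one_eq_top]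
    intro r _
    rw [← mul_one r]
    refine Ideal.mul_mem_left _ _ (Ideal.subset_span ⟨fun _ => 0, by simp, by simp⟩)
  | succ n ih =>
    rw [pow_succ]
    refine (Ideal.mul_mono ih (le_of_eq hx.symm)).trans ?_
    rw [Ideal.span_mul_span']
    refine Ideal.span_le.2 ?_
    rintro _ ⟨_, ⟨e, he, rfl⟩, _, ⟨j, rfl⟩, rfl⟩
    refine Ideal.subset_span ⟨Function.update e j (e j + 1), ?_, ?_⟩
    · rw [Finset.sum_update_of_mem (Finset.mem_univ j), ← he, ← Finset.add_sum_erase Finset.univ e (Finset.mem_univ j),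
        Finset.sdiff_singleton_eq_erase]
      omega
    · change (∏ i, x i ^ e i) * x j = _
      rw [← Finset.mul_prod_erase Finset.univ (fun i => x i ^ e i) (Finset.mem_univ j),
        ← Finset.mul_prod_erase Finset.univ (fun i => x i ^ Function.update e j (e j + 1) i) (Finset.mem_univ j),
        Function.update_self, pow_succ]
      have h1 : ∏ i ∈ Finset.univ.erase j, x i ^ Function.update e j (e j + 1) i =
          ∏ i ∈ Finset.univ.erase j, x i ^ e i := by
        refine Finset.prod_congr rfl fun i hi => ?_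
        rw [Function.update_of_ne (Finset.ne_of_mem_erase hi)]
      rw [h1]
      ring

/-- a monomial of degree `n` lies in `I ^ n` -/
theorem monomial_mem (hx : Ideal.span (Set.range x) = I) (e : Fin d → ℕ) :
    ∏ j, x j ^ e j ∈ I ^ (∑ j, e j) := by
  classical
  have h1 : ∀ s : Finset (Fin d), ∏ j ∈ s, x j ^ e j ∈ I ^ (∑ j ∈ s, e j) := by
    intro s
    induction s using Finset.induction_on with
    | empty => simp
    | insert j s hj ih =>
      rw [Finset.prod_insert hj, Finset.sum_insert hj, pow_add]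
      exact Ideal.mul_mem_mul (Ideal.pow_mem_pow (hx ▸ Ideal.subset_span ⟨j, rfl⟩) _) ih
  exact h1 Finset.univ

/-- pigeonhole: a product of `p b + d (p - 1)` generators is divisible by the `p`-th power of a product of
`b` generators -/
theorem pow_le_span_pow (hx : Ideal.span (Set.range x) = I) {p : ℕ} (hp : 0 < p) (b : ℕ) :
    I ^ (p * b + d * (p - 1)) ≤ Ideal.span {s | ∃ r ∈ I ^ b, s = r ^ p} := by
  classical
  refine (pow_eq_span_monomials hx _).trans (Ideal.span_le.2 ?_)
  rintro _ ⟨e, he, rfl⟩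
  have h1 : p * b ≤ p * ∑ j, e j / p := by
    have h2 : ∀ j, e j ≤ p * (e j / p) + (p - 1) := by
      intro j
      have h3 := Nat.div_add_mod (e j) p
      have h4 := Nat.mod_lt (e j) hp
      omega
    have h5 : ∑ j, e j ≤ ∑ j : Fin d, (p * (e j / p) + (p - 1)) := Finset.sum_le_sum fun j _ => h2 j
    rw [Finset.sum_add_distrib, ← Finset.mul_sum, Finset.sum_const, Finset.card_univ, Fintype.card_fin, smul_eq_mul] at h5
    omega
  have h2 : b ≤ ∑ j, e j / p := Nat.le_of_mul_le_mul_left h1 hp
  have h3 : ∏ j, x j ^ (e j / p) ∈ I ^ b := Ideal.pow_le_pow_right h2 (monomial_mem hx _)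
  have h4 : ∏ j, x j ^ e j = (∏ j, x j ^ (e j % p)) * (∏ j, x j ^ (e j / p)) ^ p := by
    rw [← Finset.prod_pow, ← Finset.prod_mul_distrib]
    refine Finset.prod_congr rfl fun j _ => ?_
    rw [← pow_mul, ← pow_add, mul_comm (e j / p) p, Nat.mod_add_div]
  rw [h4]
  exact Ideal.mul_mem_left _ _ (Ideal.subset_span ⟨_, h3, rfl⟩)

theorem growth (hx : Ideal.span (Set.range x) = I) {p : ℕ} (hp : 0 < p) {H : Type*} [AddCommGroup H]
    [Module R H] (G : H →+ H) (hG : ∀ (r : R) (h : H), G (r • h) = r ^ p • G h) (b : ℕ) (h : H)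
    (hh : h ∈ E I H b) : G h ∈ E I H (p * b + d * (p - 1)) := by
  intro r hr
  have h1 := pow_le_span_pow hx hp b hr
  clear hr
  induction h1 using Submodule.span_induction with
  | mem y hy =>
    obtain ⟨s, hs, rfl⟩ := hy
    rw [← hG, hh s hs, map_zero]
  | zero => rw [zero_smul]
  | add a b _ _ ha hb => rw [add_smul, ha, hb, add_zero]
  | smul a b _ hb => rw [smul_eq_mul, mul_smul, hb, smul_zero]

end Pool.Agent.Helper24.AN
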