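import Pool.Agent.Helper24.AN.Def
import Pool.Agent.Helper14.FFull.Artin

/-!
# Melkersson's lemma for several elements (block GT)
-/

namespace Pool.Agent.Helper24.AN

open Pool.Agent.Helper14.FFull

/-- If every element of `G` is killed by a power of each `x i`, and the submodule of the elements
which are killed by all `x i` is Artinian, then `G` is Artinian. -/
theorem gt {R : Type*} [CommRing R] {d : ℕ} (x : Fin d → R) {G : Type*} [AddCommGroup G] [Module R G]
    (htor : ∀ i, ∀ g : G, ∃ k : ℕ, x i ^ k • g = 0)
    (K : Submodule R G) (hK : ∀ g, g ∈ K ↔ ∀ i, x i • g = 0) (hart : IsArtinian R K) :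
    IsArtinian R G := by
  induction d generalizing G with
  | zero =>
    have hT : K = ⊤ := by
      rw [eq_top_iff]
      intro g _
      rw [hK]
      intro i
      exact i.elim0
    subst hT
    exact isArtinian_of_linearEquiv (Submodule.topEquiv : (⊤ : Submodule R G) ≃ₗ[R] G)
  | succ d ih =>
    apply isArtinian_of_torsion (x 0) (htor 0)
    obtain ⟨L, hL⟩ : ∃ L, L = LinearMap.ker (LinearMap.lsmul R G (x 0)) := ⟨_, rfl⟩
    rw [← hL]
    have memL : ∀ g : G, g ∈ L ↔ x 0 • g = 0 := fun g => by
      rw [hL, LinearMap.mem_ker, LinearMap.lsmul_apply]
    refine ih (fun i => x i.succ) (G := L) ?_ (K.comap L.subtype) ?_ ?_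
    · intro i g
      obtain ⟨k, hk⟩ := htor i.succ (g : G)
      exact ⟨k, Subtype.ext (by simpa using hk)⟩
    · intro g
      rw [Submodule.mem_comap, Submodule.subtype_apply, hK]
      constructor
      · intro h i
        exact Subtype.ext (by simpa using h i.succ)
      · intro h i
        refine Fin.cases ?_ ?_ i
        · exact (memL _).1 g.2
        · intro j
          have := congrArg Subtype.val (h j)
          simpa using this
    · let f : (K.comap L.subtype) →ₗ[R] K :=
        { toFun := fun g => ⟨(g.1 : G), g.2⟩
          map_add' := fun a b => rfl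
          map_smul' := fun r a => rfl }
      have hf : Function.Injective f := by
        intro a b hab
        have := congrArg Subtype.val hab
        exact Subtype.ext (Subtype.ext this)
      exact isArtinian_of_injective f hf

end Pool.Agent.Helper24.AN
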