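import Pool.Agent.Helper78.AN.Gt

/-!
# The module `⊕_n N T^{-n}` over `R[Y_1, …, Y_d]` (block LAM)

`Y_j` acts as multiplication by `z_j T`.
-/

namespace Pool.Agent.Helper24.AN

open Pool.Agent.Helper14.FFull

/-- Finitely supported sequences `(f n)` in `N`, that is `⊕_n N T^{-n}`. -/
def Lam {R : Type*} {d : ℕ} (_z : Fin d → R) (N : Type*) [AddCommGroup N] : Type _ := ℕ →₀ N

/-- the sequence as a function -/
def Lam.at {R : Type*} {d : ℕ} {z : Fin d → R} {N : Type*} [AddCommGroup N] (f : Lam z N) (n : ℕ) : N :=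
  (show ℕ →₀ N from f) n

/-- a finitely supported sequence as an element of `Lam` -/
def Lam.of {R : Type*} {d : ℕ} (z : Fin d → R) {N : Type*} [AddCommGroup N] (f : ℕ →₀ N) : Lam z N := f

section

variable {R : Type*} {d : ℕ} (z : Fin d → R) (N : Type*) [AddCommGroup N]

noncomputable instance : AddCommGroup (Lam z N) := inferInstanceAs (AddCommGroup (ℕ →₀ N))

variable {z N}

theorem Lam.ext {f g : Lam z N} (h : ∀ n, f.at n = g.at n) : f = g := Finsupp.ext h

theorem Lam.at_of (f : ℕ →₀ N) (n : ℕ) : (Lam.of z f).at n = f n := rfl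

theorem Lam.at_add (f g : Lam z N) (n : ℕ) : (f + g).at n = f.at n + g.at n := rfl

theorem Lam.at_zero (n : ℕ) : (0 : Lam z N).at n = 0 := rfl

theorem Lam.finite (f : Lam z N) : ∃ m, ∀ n, m ≤ n → f.at n = 0 := by
  classical
  let g : ℕ →₀ N := f
  refine ⟨g.support.sup id + 1, fun n hn => ?_⟩
  by_contra h
  have h1 : n ∈ g.support := Finsupp.mem_support_iff.mpr h
  have h2 : n ≤ g.support.sup id := Finset.le_sup (f := id) h1
  omega

end

section

variable {R : Type*} [CommRing R] {d : ℕ} (z : Fin d → R) (N : Type*) [AddCommGroup N] [Module R N]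

noncomputable instance : Module R (Lam z N) := inferInstanceAs (Module R (ℕ →₀ N))

/-- the shift -/
noncomputable def shift : Module.End R (ℕ →₀ N) :=
  Finsupp.lcomapDomain (· + 1) (add_left_injective 1)

theorem shift_apply (f : ℕ →₀ N) (n : ℕ) : shift (R := R) N f n = f (n + 1) := rfl

/-- The module over the polynomial ring: `X j` maps `f` to `n ↦ z j • f (n + 1)`. -/
noncomputable instance instModLam : Module (MvPolynomial (Fin d) R) (Lam z N) :=
  letI : Module (Polynomial R) (Lam z N) :=
    inferInstanceAs (Module (Polynomial R) (Module.AEval' (shift (R := R) N)))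
  Module.compHom _ (MvPolynomial.aeval fun j => (Polynomial.C (z j) * Polynomial.X : Polynomial R) :
    MvPolynomial (Fin d) R →ₐ[R] Polynomial R).toRingHom

end

section

variable {R : Type*} [CommRing R] {d : ℕ} {z : Fin d → R} {N : Type*} [AddCommGroup N] [Module R N]

theorem Lam.at_smul (r : R) (f : Lam z N) (n : ℕ) : (r • f).at n = r • f.at n := rfl

theorem Lam.C_smul (r : R) (f : Lam z N) : (MvPolynomial.C r : MvPolynomial (Fin d) R) • f = r • f := by
  change (MvPolynomial.aeval (fun j => (Polynomial.C (z j) * Polynomial.X : Polynomial R))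
    (MvPolynomial.C r : MvPolynomial (Fin d) R)) • (show Module.AEval' (shift (R := R) N) from f) = _
  rw [MvPolynomial.aeval_C]
  exact algebraMap_smul (Polynomial R) r (show Module.AEval' (shift (R := R) N) from f)

theorem Lam.X_smul (j : Fin d) (f : Lam z N) (n : ℕ) :
    ((MvPolynomial.X j : MvPolynomial (Fin d) R) • f).at n = z j • f.at (n + 1) := by
  let g : Module.AEval' (shift (R := R) N) := f
  have h0 : (MvPolynomial.X j : MvPolynomial (Fin d) R) • f =
    (MvPolynomial.aeval (fun j => (Polynomial.C (z j) * Polynomial.X : Polynomial R))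
      (MvPolynomial.X j : MvPolynomial (Fin d) R)) • g := rfl
  have h1 : (Polynomial.C (z j) : Polynomial R) • ((Polynomial.X : Polynomial R) • g) =
      z j • ((Polynomial.X : Polynomial R) • g) :=
    algebraMap_smul (Polynomial R) (z j) _
  rw [MvPolynomial.aeval_X, mul_smul, h1] at h0
  rw [h0]
  have h2 : (Polynomial.X : Polynomial R) • (Module.AEval'.of (shift (R := R) N) (show ℕ →₀ N from f)) =
      Module.AEval'.of (shift (R := R) N) (shift (R := R) N (show ℕ →₀ N from f)) :=
    Module.AEval'.X_smul_of _ _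
  have h3 : g = Module.AEval'.of (shift (R := R) N) (show ℕ →₀ N from f) := rfl
  rw [h3, h2]
  rfl

instance : IsScalarTower R (MvPolynomial (Fin d) R) (Lam z N) where
  smul_assoc r q f := by
    rw [← MvPolynomial.C_mul', mul_smul, Lam.C_smul]

/-- A sequence of submodules with `z j • K (n + 1) ≤ K n` as a submodule of `Lam`. -/
def Sys (K : ℕ → Submodule R N) (hK : ∀ n j, ∀ h ∈ K (n + 1), z j • h ∈ K n) :
    Submodule (MvPolynomial (Fin d) R) (Lam z N) where
  carrier := {f | ∀ n, f.at n ∈ K n}
  add_mem' := fun hf hg n => Submodule.add_mem _ (hf n) (hg n)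
  zero_mem' := fun n => Submodule.zero_mem _
  smul_mem' := by
    intro q f hf
    induction q using MvPolynomial.induction_on generalizing f with
    | C r =>
      intro n
      rw [Lam.C_smul, Lam.at_smul]
      exact Submodule.smul_mem _ _ (hf n)
    | add p q hp hq =>
      intro n
      rw [add_smul, Lam.at_add]
      exact Submodule.add_mem _ (hp hf n) (hq hf n)
    | mul_X p j hp =>
      rw [mul_smul]
      apply hp
      intro n
      rw [Lam.X_smul]
      exact hK n j _ (hf (n + 1))

theorem mem_Sys {K : ℕ → Submodule R N} {hK : ∀ n j, ∀ h ∈ K (n + 1), z j • h ∈ K n}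
    {f : Lam z N} : f ∈ Sys K hK ↔ ∀ n, f.at n ∈ K n := Iff.rfl

/-- Descending chains of systems which contain `K0` stabilise uniformly, if `Lam / Sys K0` is Artinian. -/
theorem dcc {K0 : ℕ → Submodule R N} {hK0 : ∀ n j, ∀ h ∈ K0 (n + 1), z j • h ∈ K0 n}
    (hart : IsArtinian (MvPolynomial (Fin d) R) (Lam z N ⧸ Sys (z := z) K0 hK0))
    (K : ℕ → ℕ → Submodule R N) (hK : ∀ c n j, ∀ h ∈ K c (n + 1), z j • h ∈ K c n)
    (hle : ∀ c n, K0 n ≤ K c n) (hanti : ∀ c n, K (c + 1) n ≤ K c n) :
    ∃ c0, ∀ c, c0 ≤ c → ∀ n, K c n = K c0 n := by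
  classical
  obtain ⟨Q, hQ⟩ : ∃ Q : ℕ → Submodule (MvPolynomial (Fin d) R) (Lam z N), Q = fun c => Sys (z := z) (K c) (hK c) := ⟨_, rfl⟩
  have memQ : ∀ c (f : Lam z N), f ∈ Q c ↔ ∀ n, f.at n ∈ K c n := fun c f => by
    rw [hQ]
    exact mem_Sys
  have hQanti : ∀ a b, a ≤ b → Q b ≤ Q a := by
    intro a b hab
    induction b, hab using Nat.le_induction with
    | base => exact le_rfl
    | succ b _ ih =>
      intro f hf
      refine ih ((memQ b f).2 fun n => hanti b n ((memQ (b + 1) f).1 hf n))
  have hQ0 : ∀ c, Sys (z := z) K0 hK0 ≤ Q c := fun c f hf => (memQ c f).2 fun n => hle c n (mem_Sys.1 hf n)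
  obtain ⟨c0, hc0⟩ := monotone_stabilizes_iff_artinian.mpr hart
    ⟨fun c => OrderDual.toDual ((Q c).map (Sys (z := z) K0 hK0).mkQ), fun a b hab => Submodule.map_mono (hQanti a b hab)⟩
  refine ⟨c0, fun c hc n => ?_⟩
  have h1 : (Q c0).map (Sys (z := z) K0 hK0).mkQ = (Q c).map (Sys (z := z) K0 hK0).mkQ := hc0 c hc
  have h2 : Q c0 = Q c := by
    have h3 := congrArg (Submodule.comap (Sys (z := z) K0 hK0).mkQ) h1
    rw [Submodule.comap_map_mkQ, Submodule.comap_map_mkQ, sup_eq_right.2 (hQ0 c0), sup_eq_right.2 (hQ0 c)] at h3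
    exact h3
  apply le_antisymm
  · intro h hh
    have h4 : Lam.of z (Finsupp.single n h) ∈ Q c0 := by
      apply hQanti c0 c hc
      rw [memQ]
      intro i
      rw [Lam.at_of]
      by_cases hi : n = i
      · subst hi
        rwa [Finsupp.single_eq_same]
      · rw [Finsupp.single_eq_of_ne' hi]
        exact Submodule.zero_mem _
    have h5 := (memQ c0 _).1 h4 n
    rwa [Lam.at_of, Finsupp.single_eq_same] at h5
  · intro h hh
    have h4 : Lam.of z (Finsupp.single n h) ∈ Q c := by
      rw [← h2, memQ]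
      intro i
      rw [Lam.at_of]
      by_cases hi : n = i
      · subst hi
        rwa [Finsupp.single_eq_same]
      · rw [Finsupp.single_eq_of_ne' hi]
        exact Submodule.zero_mem _
    have h5 := (memQ c _).1 h4 n
    rwa [Lam.at_of, Finsupp.single_eq_same] at h5

/-- The associated module of the filtration by the `E n` is Artinian. -/
theorem isArtinian_Lam {I : Ideal R} {x : Fin d → R} (hx : Ideal.span (Set.range x) = I)
    [IsArtinian R N] :
    IsArtinian (MvPolynomial (Fin d) R) (Lam x N ⧸ Sys (z := x) (fun n => E I N n)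
      (fun n j h hh => smul_mem_E_one I (hx ▸ Ideal.subset_span ⟨j, rfl⟩) hh)) := by
  classical
  have hE : ∀ n j, ∀ h ∈ E I N (n + 1), x j • h ∈ E I N n := fun n j h hh =>
    smul_mem_E_one I (hx ▸ Ideal.subset_span ⟨j, rfl⟩) hh
  obtain ⟨P, hP⟩ : ∃ P : Submodule (MvPolynomial (Fin d) R) (Lam x N), P = Sys (z := x) (fun n => E I N n) hE := ⟨_, rfl⟩
  change IsArtinian (MvPolynomial (Fin d) R) (Lam x N ⧸ Sys (z := x) (fun n => E I N n) hE)
  rw [← hP]
  have memP : ∀ f : Lam x N, f ∈ P ↔ ∀ n, f.at n ∈ E I N n := fun f => by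
    rw [hP]
    exact mem_Sys
  let K : Submodule (MvPolynomial (Fin d) R) (Lam x N ⧸ P) :=
    ⨅ j, LinearMap.ker (LinearMap.lsmul (MvPolynomial (Fin d) R) (Lam x N ⧸ P) (MvPolynomial.X j))
  have hK : ∀ g, g ∈ K ↔ ∀ j, (MvPolynomial.X j : MvPolynomial (Fin d) R) • g = 0 := by
    intro g
    simp only [K, Submodule.mem_iInf, LinearMap.mem_ker, LinearMap.lsmul_apply]
  refine gt (fun j => (MvPolynomial.X j : MvPolynomial (Fin d) R)) ?_ K hK ?_
  · intro j g
    obtain ⟨f, rfl⟩ := Submodule.Quotient.mk_surjective _ g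
    obtain ⟨m, hm⟩ := f.finite
    refine ⟨m, ?_⟩
    have h1 : ∀ k n, ((MvPolynomial.X j : MvPolynomial (Fin d) R) ^ k • f).at n = x j ^ k • f.at (n + k) := by
      intro k
      induction k with
      | zero =>
        intro n
        rw [pow_zero, one_smul, pow_zero, one_smul, add_zero]
      | succ k ih =>
        intro n
        rw [pow_succ', mul_smul, Lam.X_smul, ih, smul_smul, ← pow_succ', add_right_comm, add_assoc]
    rw [← Submodule.Quotient.mk_smul]
    have h2 : (MvPolynomial.X j : MvPolynomial (Fin d) R) ^ m • f = 0 := by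
      apply Lam.ext
      intro n
      rw [h1, hm (n + m) (by omega), smul_zero, Lam.at_zero]
    rw [h2, Submodule.Quotient.mk_zero]
  · apply isArtinian_of_tower R
    let φ : N →ₗ[R] K :=
      { toFun := fun h => ⟨Submodule.Quotient.mk (Lam.of x (Finsupp.single 0 h)), by
          rw [hK]
          intro j
          rw [← Submodule.Quotient.mk_smul, Submodule.Quotient.mk_eq_zero, memP]
          intro n
          rw [Lam.X_smul, Lam.at_of, Finsupp.single_eq_of_ne' (by omega), smul_zero]
          exact Submodule.zero_mem _⟩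
        map_add' := by
          intro a b
          apply Subtype.ext
          change (Submodule.Quotient.mk (Lam.of x (Finsupp.single 0 (a + b))) : Lam x N ⧸ P) =
            Submodule.Quotient.mk (Lam.of x (Finsupp.single 0 a)) + Submodule.Quotient.mk (Lam.of x (Finsupp.single 0 b))
          rw [Finsupp.single_add]
          rfl
        map_smul' := by
          intro r a
          apply Subtype.ext
          change (Submodule.Quotient.mk (Lam.of x (Finsupp.single 0 (r • a))) : Lam x N ⧸ P) =
            r • Submodule.Quotient.mk (Lam.of x (Finsupp.single 0 a))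
          rw [← Submodule.Quotient.mk_smul]
          congr 1
          apply Lam.ext
          intro n
          rw [Lam.at_smul, Lam.at_of, Lam.at_of, ← Finsupp.smul_apply, Finsupp.smul_single] }
    refine isArtinian_of_surjective N φ ?_
    rintro ⟨g, hg⟩
    obtain ⟨f, rfl⟩ := Submodule.Quotient.mk_surjective _ g
    refine ⟨f.at 0, Subtype.ext ?_⟩
    change (Submodule.Quotient.mk (Lam.of x (Finsupp.single 0 (f.at 0))) : Lam x N ⧸ P) = Submodule.Quotient.mk f
    rw [Submodule.Quotient.eq, memP]
    intro n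
    have h3 : (Lam.of x (Finsupp.single 0 (f.at 0)) - f).at n = Finsupp.single 0 (f.at 0) n - f.at n := rfl
    rw [h3]
    cases n with
    | zero =>
      rw [Finsupp.single_eq_same, sub_self]
      exact Submodule.zero_mem _
    | succ n =>
      rw [Finsupp.single_eq_of_ne' (by omega), zero_sub]
      refine Submodule.neg_mem _ ?_
      rw [mem_E_succ I hx]
      intro j
      have h4 := (hK _).1 hg j
      rw [← Submodule.Quotient.mk_smul, Submodule.Quotient.mk_eq_zero, memP] at h4
      have h5 := h4 n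
      rwa [Lam.X_smul] at h5

end

end Pool.Agent.Helper24.AN
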